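import Pool.Agent.N658.FF.Asm2

/-!
# Frustration-free Hamiltonians: polynomially many low-energy states and polynomial PEPS

Let `h ≥ 0` be an interaction on the `R × R` box, `H_L` the sum of its translates on the `L × L`
torus, and let the unit vectors `Ψ L` satisfy `H_L Ψ_L = 0` (frustration-freeness) for all large `L`.
No commutativity is assumed. Suppose that

* (gap) for some `b` and `Δ > 0` and all large `L`: the terms in EVERY union of boxes of side `b` (not
  only all the terms of the torus) have spectral gap at least `Δ` above their common kernel;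

* (holes) one of the following two conditions holds for all large `L`.
  (a) The common kernel of the terms which do not meet `n` boxes of side `w` has dimension at most
  `exp (A n w ^ a)`, for all `n` (with `n = 0` this is uniqueness) and all `w₀ ≤ w ≤ L`.
  (b) `Ψ_L` is the only ground state on the torus, and holes can be filled (there are no
  superselection sectors at holes): if `ψ ≠ 0` is annihilated by all terms off `n + 1` boxes of side
  `w`, then some operator on the box of side `w + 2 w ^ κ` around the last one maps `ψ` to a vector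
  which is not orthogonal to the vectors annihilated by all the terms off the first `n` boxes.

Then `H_L` has unique ground state and gap `Δ`, and

1. `H_L` has at most `L ^ (C (m + 1))` eigenvalues up to `m`, for all `m` and all large `L`: the
   spectral hypothesis under which the approximation was known holds for all these Hamiltonians;

2. for every `c > 0` there is `C` such that for all large `L` some PEPS of bond dimension at most
   `L ^ C` is within `L ^ (-c)` of `Ψ_L`.

Proof of 1. Write `P_A` for the projection on the common kernel of the terms in `A`. By the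
detectability lemma `P_A` is approximated by `k` layers of products of local projections with error
`q ^ k`. Two consequences: `P_A` transfers energy only locally (the energy of a term in `P_A u` is at
most a sum of energies of terms in `u` with exponentially decaying weights), and for `u` in the
kernel of the terms in `B` the energies of the terms far from `X` are additive, up to exponentially
small errors, in the splitting `u = P_(B ∪ X) u + (u - P_(B ∪ X) u)`. Split a vector `u` of energy `≤ m`
successively along blocks `X` of side `C log L`; a potential function (weights on the terms, changed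
only near `X`) shows that up to a small error `u` lies in a space obtained from the branches with
at most `C (m + 1)` bad blocks, and that the leaves can be replaced by their low energy parts. Each
leaf is the common kernel of the terms off the bad blocks; splitting its low energy part again along
blocks of side `C log log L` inside the bad blocks leaves kernels of the terms off `C (m + 1)` blocks
of side `C log log L`, which have dimension at most `exp (A (m + 1) (log log L) ^ a)`. The number of
branches is `L ^ (C (m + 1))`.
-/

set_option autoImplicit false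

open scoped BigOperators Matrix ComplexOrder
open Finset Pool.Agent.TH235.PP Pool.Agent.Results.MP_953b23_mp.OverlapBoosting
  Pool.Agent.Results.MP_953b23_mp.ThermalCriterion

noncomputable section

namespace Pool.Agent.Results.MP_953b23_mp.FrustrationFree

open Classical in
/-- The union of the boxes of side `b` with corners in `A`. -/
def boxes {L : ℕ} (b : ℕ) (A : Finset (Site L)) : Finset (Site L) :=
  A.biUnion fun y => univ.image fun z : Fin b × Fin b => sh y z

/-- For every set `A` of sites the terms `term h u` with `u` in the union of the boxes of side `b`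
with corners in `A` have gap at least `Δ` above their common kernel: if `φ` is orthogonal to the
common kernel then the sum of the expectations of these terms in `φ` is at least `Δ ‖φ‖²`. -/
def ThickGap {d R : ℕ} (h : BoxOp d R) (L : ℕ) [NeZero L] (b : ℕ) (Δ : ℝ) : Prop :=
  ∀ (A : Finset (Site L)) (φ : (Site L → Fin d) → ℂ),
    (∀ ψ : (Site L → Fin d) → ℂ, (∀ u ∈ boxes b A, term h u *ᵥ ψ = 0) → ip ψ φ = 0) →
    Δ * normSq φ ≤ ∑ u ∈ boxes b A, (ip φ (term h u *ᵥ φ)).re

/-- The ground space of the punctured torus: the vectors annihilated by all the terms which act on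
sites outside the boxes of side `w` with corners in `C`. -/
def punctured {d R : ℕ} (h : BoxOp d R) (L : ℕ) [NeZero L] (w : ℕ) (C : Finset (Site L)) :
    Submodule ℂ ((Site L → Fin d) → ℂ) where
  carrier := {ψ | ∀ u : Site L,
    (∀ (x : Fin R × Fin R), ∀ c ∈ C, ∀ y : Fin w × Fin w, sh u x ≠ sh c y) → term h u *ᵥ ψ = 0}
  add_mem' := by
    intro a b ha hb u hu
    rw [Matrix.mulVec_add, ha u hu, hb u hu, add_zero]
  zero_mem' := by
    intro u _
    rw [Matrix.mulVec_zero]
  smul_mem' := by
    intro c a ha u hu
    rw [Matrix.mulVec_smul, ha u hu, smul_zero]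

/-- The ground space of the torus with `n` holes of side `w` has dimension at most
`exp (A n w ^ a)`. -/
def FewPunctured {d R : ℕ} (h : BoxOp d R) : Prop :=
  ∃ (A : ℝ) (a w₀ L₀ : ℕ), ∀ (L : ℕ) [NeZero L], L₀ ≤ L → ∀ (w : ℕ) (C : Finset (Site L)),
    w₀ ≤ w → w ≤ L →
      (Module.finrank ℂ (punctured h L w C) : ℝ) ≤ Real.exp (A * C.card * (w : ℝ) ^ a)

/-- Uniqueness of the ground state on the torus, and filling of holes: a nonzero ground state `ψ` of
the torus with holes `C` and one more hole is mapped by an operator `O` on the box of side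
`w + 2 w ^ κ` around this hole to a vector not orthogonal to the ground states `φ` of the torus with
holes `C`. -/
def Fillable {d R : ℕ} (h : BoxOp d R) (Ψ : ∀ L : ℕ, (Site L → Fin d) → ℂ) : Prop :=
  ∃ κ w₀ L₀ : ℕ, ∀ (L : ℕ) [NeZero L], L₀ ≤ L →
    (∀ φ : (Site L → Fin d) → ℂ, ham h L *ᵥ φ = 0 → ∃ c : ℂ, φ = c • Ψ L) ∧
    ∀ w : ℕ, w₀ ≤ w → w + 2 * w ^ κ ≤ L → ∀ (C : Finset (Site L)) (v : Site L),
      ∀ ψ ∈ punctured h L w (insert (v.1 + ((w ^ κ : ℕ) : ZMod L), v.2 + ((w ^ κ : ℕ) : ZMod L)) C),
        ψ ≠ 0 → ∃ (O : BoxOp d (w + 2 * w ^ κ)) (φ : (Site L → Fin d) → ℂ),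
          φ ∈ punctured h L w C ∧ ip φ (term O v *ᵥ ψ) ≠ 0

theorem result (d R b : ℕ) (hd : 2 ≤ d) (hR : 1 ≤ R) (hb : 1 ≤ b) (h : BoxOp d R)
    (hh : h.PosSemidef) (Δ : ℝ) (hΔ : 0 < Δ) (Ψ : ∀ L : ℕ, (Site L → Fin d) → ℂ)
    (hΨ : ∃ L₀ : ℕ, ∀ (L : ℕ) [NeZero L], L₀ ≤ L →
      normSq (Ψ L) = 1 ∧ ham h L *ᵥ Ψ L = 0 ∧ ThickGap h L b Δ)
    (hP : FewPunctured h ∨ Fillable h Ψ) :
    GappedFamily h Δ Ψ ∧
      (∃ C L₀ : ℕ, ∀ (L : ℕ) [NeZero L], L₀ ≤ L → ∀ (hH : (ham h L).IsHermitian) (m : ℕ),
        numStates hH m ≤ L ^ (C * (m + 1))) ∧
      ∀ c : ℝ, 0 < c → ∃ C L₀ : ℕ, ∀ (L : ℕ) [NeZero L], L₀ ≤ L →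
        ∃ (D : ℕ) (ψ : (Site L → Fin d) → ℂ), D ≤ L ^ C ∧ IsPEPS D ψ ∧
          Real.sqrt (normSq (ψ - Ψ L)) ≤ (L : ℝ) ^ (-c) :=
  Pool.Agent.N658.FF.final (by omega) hR hb h hh hΔ Ψ hΨ hP

end Pool.Agent.Results.MP_953b23_mp.FrustrationFree
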